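import Pool.Agent.Helper92_SBG.Stmts

/-!
# Squad SBG, module TIS: totally isotropic subspaces
-/

namespace Pool.Agent.SBG.H65

open Sy Module

section general

variable {ι : Type} [Fintype ι]

/-- the coordinate subspace is a product of lines -/
noncomputable def vsE (S : ι → Prop) [DecidablePred S] : VS S ≃ₗ[ℚ] ({c // S c} → ℚ) where
  toFun x := fun c => x.1 c.1
  map_add' _ _ := rfl
  map_smul' _ _ := rfl
  invFun f := ⟨fun c => if h : S c then f ⟨c, h⟩ else 0, fun c hc => dif_neg hc⟩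
  left_inv x := by
    apply Subtype.ext
    funext c
    by_cases h : S c
    · exact dif_pos h
    · exact (dif_neg h).trans (x.2 c h).symm
  right_inv f := by
    funext c
    exact dif_pos c.2

theorem dm_VS (S : ι → Prop) [DecidablePred S] : dm (VS S) = Fintype.card {c // S c} := by
  rw [dm, (vsE S).finrank_eq, Module.finrank_fintype_fun_eq_card]

end general

section count

theorem card_Ix (k : ℕ) (S : Ix k → Prop) [DecidablePred S] (Q : Sy → Prop) [DecidablePred Q]
    (R : Fin 3 → Prop) [DecidablePred R] (h1 : ∀ p : Fin k × Sy, S (Sum.inl p) ↔ Q p.2)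
    (h2 : ∀ j, S (Sum.inr j) ↔ R j) : Fintype.card {c // S c} =
      k * (Finset.univ.filter Q).card + (Finset.univ.filter R).card := by
  rw [Fintype.card_subtype, Finset.card_filter, Fintype.sum_sum_type, Fintype.sum_prod_type]
  congr 1
  · have : ∀ i : Fin k, ∑ s : Sy, (if S (Sum.inl (i, s)) then 1 else 0) =
        (Finset.univ.filter Q).card := by
      intro i
      rw [Finset.card_filter]
      exact Finset.sum_congr rfl fun s _ => if_congr (h1 (i, s)) rfl rfl
    rw [Finset.sum_congr rfl fun i _ => this i, Finset.sum_const, Finset.card_univ,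
      Fintype.card_fin, smul_eq_mul]
  · rw [Finset.card_filter]
    exact Finset.sum_congr rfl fun j _ => if_congr (h2 j) rfl rfl

theorem card3 (k : ℕ) : dm (VS fun c : Ix k => 3 ≤ wtI c) = 9 * k + 1 := by
  rw [dm_VS, card_Ix k _ (fun s => 3 ≤ s.wt) (fun j => 3 ≤ (j : ℕ) + 1) (fun _ => Iff.rfl)
    (fun _ => Iff.rfl)]
  have h1 : (Finset.univ.filter fun s : Sy => 3 ≤ s.wt).card = 9 := by decide
  have h2 : (Finset.univ.filter fun j : Fin 3 => 3 ≤ (j : ℕ) + 1).card = 1 := by decide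
  rw [h1, h2]
  ring

/-- the symbols which occur in the kernel -/
def qk : Sy → Bool
  | a3 => false | b3 => false | c3 => false | u1 => false | v1 => false | u2 => false
  | v2 => false | qb => false | qc => false
  | _ => true

/-- the coordinates of the kernel -/
def SK {k : ℕ} : Ix k → Prop
  | Sum.inl p => qk p.2 = true
  | Sum.inr _ => True

instance {k : ℕ} : DecidablePred (SK (k := k)) := fun c => by
  rcases c with p | j
  · exact inferInstanceAs (Decidable (qk p.2 = true))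
  · exact inferInstanceAs (Decidable True)

theorem cardK (k : ℕ) : dm (VS (SK (k := k))) = 10 * k + 3 := by
  rw [dm_VS, card_Ix k _ (fun s => qk s = true) (fun _ => True) (fun _ => Iff.rfl)
    (fun _ => Iff.rfl)]
  have h1 : (Finset.univ.filter fun s : Sy => qk s = true).card = 10 := by decide
  have h2 : (Finset.univ.filter fun _ : Fin 3 => True).card = 3 := by decide
  rw [h1, h2]
  ring

end count

section forms

variable {k : ℕ}

theorem bf0_smul_left (t : ℚ) (x y : Ix k → ℚ) : bf0 (t • x) y = t * bf0 x y := by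
  simp only [bf0, Finset.mul_sum]
  refine Finset.sum_congr rfl fun i _ => ?_
  simp only [be0, Pi.smul_apply, smul_eq_mul]
  ring

theorem bf1_smul_left (t : ℚ) (x y : Ix k → ℚ) : bf1 (t • x) y = t * bf1 x y := by
  simp only [bf1, Finset.mul_sum]
  refine Finset.sum_congr rfl fun i _ => ?_
  simp only [be1, Pi.smul_apply, smul_eq_mul]
  ring

theorem bf0_smul_right (t : ℚ) (x y : Ix k → ℚ) : bf0 x (t • y) = t * bf0 x y := by
  rw [bf0_swap, bf0_smul_left, bf0_swap x y]
  ring

theorem bf1_smul_right (t : ℚ) (x y : Ix k → ℚ) : bf1 x (t • y) = t * bf1 x y := by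
  rw [bf1_swap, bf1_smul_left, bf1_swap x y]
  ring

/-- the first form as a bilinear map -/
noncomputable def B0 (k : ℕ) : (Ix k → ℚ) →ₗ[ℚ] (Ix k → ℚ) →ₗ[ℚ] ℚ :=
  LinearMap.mk₂ ℚ bf0 bf0_add_left bf0_smul_left bf0_add_right bf0_smul_right

/-- the second form as a bilinear map -/
noncomputable def B1 (k : ℕ) : (Ix k → ℚ) →ₗ[ℚ] (Ix k → ℚ) →ₗ[ℚ] ℚ :=
  LinearMap.mk₂ ℚ bf1 bf1_add_left bf1_smul_left bf1_add_right bf1_smul_right

theorem B0_apply (x y : Ix k → ℚ) : B0 k x y = bf0 x y := rfl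

theorem B1_apply (x y : Ix k → ℚ) : B1 k x y = bf1 x y := rfl

theorem bf0_single (x : Ix k → ℚ) (i : Fin k) (s : Sy) :
    bf0 x (Pi.single (Sum.inl (i, s)) 1) =
      be0 (fun t => x (Sum.inl (i, t))) (Pi.single s 1) := by
  unfold bf0
  rw [Finset.sum_eq_single i]
  · congr 1
    funext t
    by_cases h : t = s
    · subst h
      rw [Pi.single_eq_same, Pi.single_eq_same]
    · rw [Pi.single_eq_of_ne h, Pi.single_eq_of_ne]
      intro h'
      apply h
      injection h' with h'
      exact (Prod.mk.inj h').2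
  · intro j _ hj
    have h0 : (fun t => (Pi.single (Sum.inl (i, s)) 1 : Ix k → ℚ) (Sum.inl (j, t))) = 0 := by
      funext t
      rw [Pi.single_eq_of_ne]
      · rfl
      · intro h'
        apply hj
        injection h' with h'
        exact (Prod.mk.inj h').1
    rw [h0]
    simp [be0]
  · intro h
    exact absurd (Finset.mem_univ i) h

theorem bf1_single (x : Ix k → ℚ) (i : Fin k) (s : Sy) :
    bf1 x (Pi.single (Sum.inl (i, s)) 1) =
      be1 (fun t => x (Sum.inl (i, t))) (Pi.single s 1) := by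
  unfold bf1
  rw [Finset.sum_eq_single i]
  · congr 1
    funext t
    by_cases h : t = s
    · subst h
      rw [Pi.single_eq_same, Pi.single_eq_same]
    · rw [Pi.single_eq_of_ne h, Pi.single_eq_of_ne]
      intro h'
      apply h
      injection h' with h'
      exact (Prod.mk.inj h').2
  · intro j _ hj
    have h0 : (fun t => (Pi.single (Sum.inl (i, s)) 1 : Ix k → ℚ) (Sum.inl (j, t))) = 0 := by
      funext t
      rw [Pi.single_eq_of_ne]
      · rfl
      · intro h'
        apply hj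
        injection h' with h'
        exact (Prod.mk.inj h').1
    rw [h0]
    simp [be1]
  · intro h
    exact absurd (Finset.mem_univ i) h

/-- a vector orthogonal to the coordinates of weight at least 3 -/
theorem ker_le {x : Ix k → ℚ}
    (h : ∀ y ∈ VS fun c : Ix k => 3 ≤ wtI c, bf0 x y = 0 ∧ bf1 x y = 0) :
    x ∈ VS (SK (k := k)) := by
  have hs : ∀ (i : Fin k) (s : Sy), 3 ≤ s.wt →
      be0 (fun t => x (Sum.inl (i, t))) (Pi.single s 1) = 0 ∧
      be1 (fun t => x (Sum.inl (i, t))) (Pi.single s 1) = 0 := by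
    intro i s hs
    rw [← bf0_single, ← bf1_single]
    apply h
    intro c hc
    rw [Pi.single_eq_of_ne]
    rintro rfl
    exact hc hs
  have z : ∀ (i : Fin k), x (Sum.inl (i, u1)) = 0 ∧ x (Sum.inl (i, v1)) = 0 ∧
      x (Sum.inl (i, v2)) = 0 ∧ x (Sum.inl (i, a3)) = 0 ∧ x (Sum.inl (i, b3)) = 0 ∧
      x (Sum.inl (i, qb)) = 0 ∧ x (Sum.inl (i, u2)) = 0 ∧ x (Sum.inl (i, c3)) = 0 ∧
      x (Sum.inl (i, qc)) = 0 := by
    intro i
    have e1 := (hs i a1 (by decide)).1
    have e2 := (hs i b1 (by decide)).1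
    have e3 := (hs i b2 (by decide)).1
    have e4 := (hs i u3 (by decide)).1
    have e5 := (hs i v3 (by decide)).1
    have e6 := (hs i yc (by decide)).1
    have e7 := (hs i b2 (by decide)).2
    have e8 := (hs i v3 (by decide)).2
    have e9 := (hs i yc (by decide)).2
    simp [be0, be1] at e1 e2 e3 e4 e5 e6 e7 e8 e9
    exact ⟨e1, e2, e3, e4, e5, e6, e7, e8, e9⟩
  intro c hc
  rcases c with ⟨i, s⟩ | j
  · obtain ⟨z1, z2, z3, z4, z5, z6, z7, z8, z9⟩ := z i
    cases s
    all_goals first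
      | assumption
      | exact absurd rfl hc
  · exact absurd trivial hc

end forms

theorem tis : TisStmt := by
  intro k L hL
  have hle : L ⊓ VS (fun c => 3 ≤ wtI c) ≤ VS (fun c : Ix k => 3 ≤ wtI c) := inf_le_right
  obtain ⟨W, hW⟩ : ∃ W, W = VS (fun c : Ix k => 3 ≤ wtI c) := ⟨_, rfl⟩
  have hdW : Module.finrank ℚ W = 9 * k + 1 := by
    rw [hW]
    exact card3 k
  rw [← hW] at hle ⊢
  obtain ⟨C, hC⟩ := Submodule.exists_isCompl ((L ⊓ W).comap W.subtype)
  have hdim : Module.finrank ℚ ((L ⊓ W).comap W.subtype) + Module.finrank ℚ C = 9 * k + 1 := by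
    rw [← hdW]
    exact Submodule.finrank_add_eq_of_isCompl hC
  have hcm : Module.finrank ℚ ((L ⊓ W).comap W.subtype) = dm (L ⊓ W) :=
    (Submodule.comapSubtypeEquivOfLe hle).finrank_eq
  -- the map
  let g : C →ₗ[ℚ] (Ix k → ℚ) := W.subtype ∘ₗ C.subtype
  let Φ : L →ₗ[ℚ] (C →ₗ[ℚ] ℚ) × (C →ₗ[ℚ] ℚ) :=
    (((LinearMap.lcomp ℚ ℚ g) ∘ₗ (B0 k)) ∘ₗ L.subtype).prod
      (((LinearMap.lcomp ℚ ℚ g) ∘ₗ (B1 k)) ∘ₗ L.subtype)
  have hΦ : ∀ (x : L) (y : C), (Φ x).1 y = bf0 (x : Ix k → ℚ) (g y) ∧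
      (Φ x).2 y = bf1 (x : Ix k → ℚ) (g y) := fun x y => ⟨rfl, rfl⟩
  have hker : (LinearMap.ker Φ).map L.subtype ≤ VS (SK (k := k)) := by
    rintro _ ⟨x, hx, rfl⟩
    apply ker_le
    intro y hy
    rw [← hW] at hy
    have hyt : (⟨y, hy⟩ : W) ∈ ((L ⊓ W).comap W.subtype) ⊔ C := by
      rw [hC.sup_eq_top]
      trivial
    obtain ⟨a, ha, b, hb, hab⟩ := Submodule.mem_sup.1 hyt
    have hyab : y = (a : Ix k → ℚ) + (b : Ix k → ℚ) := by
      have := congrArg Subtype.val hab
      exact this.symm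
    have h1 := hL x x.2 a ha.1
    have h2 := hΦ x ⟨b, hb⟩
    have hx' : Φ x = 0 := hx
    rw [hx'] at h2
    have h3 : bf0 (x : Ix k → ℚ) (b : Ix k → ℚ) = 0 := h2.1.symm
    have h4 : bf1 (x : Ix k → ℚ) (b : Ix k → ℚ) = 0 := h2.2.symm
    rw [hyab, bf0_add_right, bf1_add_right]
    constructor
    · change bf0 (x : Ix k → ℚ) (a : Ix k → ℚ) + bf0 (x : Ix k → ℚ) (b : Ix k → ℚ) = 0
      rw [h1.1, h3, add_zero]
    · change bf1 (x : Ix k → ℚ) (a : Ix k → ℚ) + bf1 (x : Ix k → ℚ) (b : Ix k → ℚ) = 0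
      rw [h1.2, h4, add_zero]
  have hkd : Module.finrank ℚ (LinearMap.ker Φ) ≤ 10 * k + 3 := by
    rw [← cardK k]
    have e := (Submodule.equivMapOfInjective L.subtype L.injective_subtype
      (LinearMap.ker Φ)).finrank_eq
    rw [e]
    exact Submodule.finrank_mono hker
  have hrd : Module.finrank ℚ (LinearMap.range Φ) ≤ 2 * Module.finrank ℚ C := by
    refine (Submodule.finrank_le _).trans ?_
    have hd : Module.finrank ℚ (C →ₗ[ℚ] ℚ) = Module.finrank ℚ C := by
      have := Subspace.dual_finrank_eq (K := ℚ) (V := C)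
      exact this
    rw [Module.finrank_prod]
    omega
  have hrn := LinearMap.finrank_range_add_finrank_ker Φ
  show Module.finrank ℚ L + 2 * dm (L ⊓ W) ≤ 28 * k + 5
  omega

end Pool.Agent.SBG.H65
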